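import Pool.Agent.Helper60.PlzA.Goals

/-!
# Project PLA (MP_8e7d5e_co): STARG, the sum of STARV over the vertices
-/

set_option autoImplicit false

namespace Pool.Agent.Helper26.PlzA

open Finset Pool.Agent.Helper93.Plz Pool.Agent.Helper60.PlzA

open scoped Classical

variable {V : Type} [Fintype V]

/-- the set of induced paths in the neighbourhood of `v` -/
noncomputable def PP (G : SimpleGraph V) (v : V) : Finset (V × V × V) :=
  univ.filter fun q : V × V × V => G.Adj v q.1 ∧ G.Adj v q.2.1 ∧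
        G.Adj v q.2.2 ∧ G.Adj q.1 q.2.1 ∧ G.Adj q.2.1 q.2.2 ∧ q.1 ≠ q.2.2 ∧
        ¬ G.Adj q.1 q.2.2

theorem cod_sum (G : SimpleGraph V) (a c : V) :
    (cod G a c : ℝ) = ∑ w, if G.Adj a w ∧ G.Adj c w then (1 : ℝ) else 0 := by
  unfold cod cmn
  rw [Finset.card_filter]
  push_cast
  rfl

theorem sum_PP_le (G : SimpleGraph V) :
    ∑ v, ((PP G v).card : ℝ) ≤
      ∑ a, ∑ b, (if a ≠ b ∧ ¬ G.Adj a b then (cod G a b : ℝ) ^ 2 else 0) := by
  have h1 : ∀ v, ((PP G v).card : ℝ) = ∑ a, ∑ b, ∑ c,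
      if (G.Adj v a ∧ G.Adj v b ∧ G.Adj v c ∧ G.Adj a b ∧ G.Adj b c ∧ a ≠ c ∧ ¬ G.Adj a c)
        then (1 : ℝ) else 0 := by
    intro v
    unfold PP
    rw [Finset.card_filter]
    push_cast
    rw [Fintype.sum_prod_type]
    refine Finset.sum_congr rfl fun a _ => ?_
    rw [Fintype.sum_prod_type]
  calc ∑ v, ((PP G v).card : ℝ) = ∑ v, ∑ a, ∑ b, ∑ c,
      (if (G.Adj v a ∧ G.Adj v b ∧ G.Adj v c ∧ G.Adj a b ∧ G.Adj b c ∧ a ≠ c ∧ ¬ G.Adj a c)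
        then (1 : ℝ) else 0) := Finset.sum_congr rfl fun v _ => h1 v
    _ = ∑ a, ∑ c, ∑ v, ∑ b,
      (if (G.Adj v a ∧ G.Adj v b ∧ G.Adj v c ∧ G.Adj a b ∧ G.Adj b c ∧ a ≠ c ∧ ¬ G.Adj a c)
        then (1 : ℝ) else 0) := by
        rw [Finset.sum_comm]
        refine Finset.sum_congr rfl fun a _ => ?_
        rw [Finset.sum_comm' (s := univ) (t := fun _ => univ) (s' := fun _ => univ) (t' := univ)
          (by simp)]
        rw [Finset.sum_comm]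
        calc ∑ v, ∑ b, ∑ c, (if (G.Adj v a ∧ G.Adj v b ∧ G.Adj v c ∧ G.Adj a b ∧ G.Adj b c ∧
              a ≠ c ∧ ¬ G.Adj a c) then (1 : ℝ) else 0)
            = ∑ v, ∑ c, ∑ b, (if (G.Adj v a ∧ G.Adj v b ∧ G.Adj v c ∧ G.Adj a b ∧ G.Adj b c ∧
              a ≠ c ∧ ¬ G.Adj a c) then (1 : ℝ) else 0) :=
              Finset.sum_congr rfl fun v _ => Finset.sum_comm
          _ = _ := Finset.sum_comm
    _ ≤ ∑ a, ∑ b, (if a ≠ b ∧ ¬ G.Adj a b then (cod G a b : ℝ) ^ 2 else 0) := by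
        refine Finset.sum_le_sum fun a _ => Finset.sum_le_sum fun c _ => ?_
        split_ifs with hac
        · rw [cod_sum, sq, Finset.sum_mul_sum]
          refine Finset.sum_le_sum fun v _ => Finset.sum_le_sum fun b _ => ?_
          by_cases h : (G.Adj v a ∧ G.Adj v b ∧ G.Adj v c ∧ G.Adj a b ∧ G.Adj b c ∧ a ≠ c ∧
              ¬ G.Adj a c)
          · rw [if_pos h, if_pos ⟨h.1.symm, h.2.2.1.symm⟩,
              if_pos ⟨h.2.2.2.1, h.2.2.2.2.1.symm⟩]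
            norm_num
          · rw [if_neg h]
            split_ifs <;> norm_num
        · refine le_of_eq ?_
          refine Finset.sum_eq_zero fun v _ => Finset.sum_eq_zero fun b _ => ?_
          rw [if_neg]
          intro h
          exact hac ⟨h.2.2.2.2.2.1, h.2.2.2.2.2.2⟩

theorem starg (h1 : S_STARV) (h2 : S_BONE) : S_STARG := by
  intro V _ G t γ hR L hL
  have ht : 1 ≤ t := by
    by_contra h
    have h0 : t = 0 := by omega
    have := hR.one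
    rw [h0] at this
    norm_num at this
  have htr : (1 : ℝ) ≤ t := by exact_mod_cast ht
  have hγ : 0 < γ := by
    by_contra h
    have h' : γ ≤ 0 := not_lt.mp h
    have := hR.one
    have h3 : γ * (t : ℝ) ≤ 0 := mul_nonpos_of_nonpos_of_nonneg h' (by linarith)
    linarith
  have hLr : (1 : ℝ) ≤ L := by exact_mod_cast hL
  have hB := h2 V _ G t γ hR
  have hP := (sum_PP_le G).trans hB
  have hsum : ∑ v, (-((L : ℝ) ^ 3 * (((PP G v).card : ℝ) + (t : ℝ) ^ 2) + 30 / L * (t : ℝ) ^ 3 +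
        ((t : ℝ) - dgr G v) * (t : ℝ) ^ 2 / 4)) ≤
      ∑ v, ∑ z ∈ nbs G v, (1 - ((cod G z v : ℝ) / t) ^ 3) *
        (1 / 4 * (t : ℝ) ^ 2 - rho2 G v + (cod G z v : ℝ) ^ 2) :=
    Finset.sum_le_sum fun v _ => h1 V _ G t v ht (hR.deg v) L hL
  refine le_trans ?_ hsum
  have hexp : ∑ v, (-((L : ℝ) ^ 3 * (((PP G v).card : ℝ) + (t : ℝ) ^ 2) + 30 / L * (t : ℝ) ^ 3 +
        ((t : ℝ) - dgr G v) * (t : ℝ) ^ 2 / 4)) =
      -((L : ℝ) ^ 3 * (∑ v, ((PP G v).card : ℝ)) + (L : ℝ) ^ 3 * (Fintype.card V * (t : ℝ) ^ 2) +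
        Fintype.card V * (30 / L * (t : ℝ) ^ 3) +
        (∑ v, ((t : ℝ) - dgr G v)) * ((t : ℝ) ^ 2 / 4)) := by
    have e : ∀ v, (-((L : ℝ) ^ 3 * (((PP G v).card : ℝ) + (t : ℝ) ^ 2) + 30 / L * (t : ℝ) ^ 3 +
        ((t : ℝ) - dgr G v) * (t : ℝ) ^ 2 / 4)) =
        -((L : ℝ) ^ 3 * ((PP G v).card : ℝ)) + (-((L : ℝ) ^ 3 * (t : ℝ) ^ 2)) +
        (-(30 / L * (t : ℝ) ^ 3)) + (-(((t : ℝ) - dgr G v) * ((t : ℝ) ^ 2 / 4))) := by
      intro v
      ring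
    have f1 : ∑ v, (-((L : ℝ) ^ 3 * ((PP G v).card : ℝ))) =
        -((L : ℝ) ^ 3 * (∑ v, ((PP G v).card : ℝ))) := by
      rw [Finset.sum_neg_distrib, Finset.mul_sum]
    have f2 : ∑ _v : V, (-((L : ℝ) ^ 3 * (t : ℝ) ^ 2)) =
        -((L : ℝ) ^ 3 * (Fintype.card V * (t : ℝ) ^ 2)) := by
      rw [Finset.sum_const, Finset.card_univ, nsmul_eq_mul]
      ring
    have f3 : ∑ _v : V, (-(30 / (L : ℝ) * (t : ℝ) ^ 3)) =
        -(Fintype.card V * (30 / L * (t : ℝ) ^ 3)) := by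
      rw [Finset.sum_const, Finset.card_univ, nsmul_eq_mul]
      ring
    have f4 : ∑ v, (-(((t : ℝ) - dgr G v) * ((t : ℝ) ^ 2 / 4))) =
        -((∑ v, ((t : ℝ) - dgr G v)) * ((t : ℝ) ^ 2 / 4)) := by
      rw [Finset.sum_neg_distrib, Finset.sum_mul]
    rw [Finset.sum_congr rfl fun v _ => e v, Finset.sum_add_distrib, Finset.sum_add_distrib,
      Finset.sum_add_distrib, f1, f2, f3, f4]
    ring
  rw [hexp]
  have hn : (0 : ℝ) ≤ Fintype.card V := Nat.cast_nonneg _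
  have hL3 : (1 : ℝ) ≤ (L : ℝ) ^ 3 := one_le_pow₀ hLr
  have a1 : (L : ℝ) ^ 3 * (∑ v, ((PP G v).card : ℝ)) ≤
      (L : ℝ) ^ 3 * (2 * γ * Fintype.card V * (t : ℝ) ^ 3) :=
    mul_le_mul_of_nonneg_left hP (by positivity)
  have a2 : (Fintype.card V : ℝ) * (t : ℝ) ^ 2 ≤ γ * Fintype.card V * (t : ℝ) ^ 3 := by
    have := hR.one
    have h3 : (Fintype.card V : ℝ) * (t : ℝ) ^ 2 * 1 ≤
        (Fintype.card V : ℝ) * (t : ℝ) ^ 2 * (γ * t) :=
      mul_le_mul_of_nonneg_left this (by positivity)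
    calc (Fintype.card V : ℝ) * (t : ℝ) ^ 2 = (Fintype.card V : ℝ) * (t : ℝ) ^ 2 * 1 := by ring
      _ ≤ _ := h3
      _ = _ := by ring
  have a3 : (L : ℝ) ^ 3 * ((Fintype.card V : ℝ) * (t : ℝ) ^ 2) ≤
      (L : ℝ) ^ 3 * (γ * Fintype.card V * (t : ℝ) ^ 3) :=
    mul_le_mul_of_nonneg_left a2 (by positivity)
  have a4 : (∑ v, ((t : ℝ) - dgr G v)) * ((t : ℝ) ^ 2 / 4) ≤
      γ * t * Fintype.card V * ((t : ℝ) ^ 2 / 4) :=
    mul_le_mul_of_nonneg_right hR.dfc (by positivity)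
  have hX : 0 ≤ γ * Fintype.card V * (t : ℝ) ^ 3 := by positivity
  have a5 : γ * Fintype.card V * (t : ℝ) ^ 3 ≤ (L : ℝ) ^ 3 * (γ * Fintype.card V * (t : ℝ) ^ 3) :=
    le_mul_of_one_le_left hX hL3
  have e1 : (4 * (L : ℝ) ^ 3 * γ + 30 / L) * Fintype.card V * (t : ℝ) ^ 3 =
      4 * ((L : ℝ) ^ 3 * (γ * Fintype.card V * (t : ℝ) ^ 3)) +
      Fintype.card V * (30 / L * (t : ℝ) ^ 3) := by ring
  have e2 : (L : ℝ) ^ 3 * (2 * γ * Fintype.card V * (t : ℝ) ^ 3) =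
      2 * ((L : ℝ) ^ 3 * (γ * Fintype.card V * (t : ℝ) ^ 3)) := by ring
  have e3 : γ * t * Fintype.card V * ((t : ℝ) ^ 2 / 4) = (γ * Fintype.card V * (t : ℝ) ^ 3) / 4 := by
    ring
  rw [e2] at a1
  rw [e3] at a4
  rw [e1]
  linarith

end Pool.Agent.Helper26.PlzA
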